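import Pool.Agent.Lib.BSDK.DedAbs

/-!
Heights on the field of fractions `K` of two Dedekind domains `R`, `B` with finite quotients, `B`
semilocal, from the product formula; the Northcott property.
-/

set_option autoImplicit false

open IsDedekindDomain Function Height
open scoped NNReal

namespace Pool.Agent.BSDK

/-- The data: `R`, `B` with the field of fractions `K`, `s ∈ B` (for function fields `R` is the ring
of functions regular outside infinity, `B` the ring of functions regular at infinity, `s = 1/t`). -/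
structure PF (R B K : Type) [CommRing R] [IsDedekindDomain R] [CommRing B] [IsDedekindDomain B]
    [Field K] [Algebra R K] [Algebra B K] (s : B) : Prop where
  /-- `s` lies in all maximal ideals of `B` -/
  rad : ∀ Q : HeightOneSpectrum B, s ∈ Q.asIdeal
  /-- `B` has finitely many maximal ideals -/
  semi : Finite (HeightOneSpectrum B)
  /-- it is not zero -/
  ne : s ≠ 0
  /-- `R ∩ s ^ (- y) B` is finite -/
  fin : ∀ y : ℕ, {r : R | ∃ b : B, algebraMap R K r * algebraMap B K s ^ y = algebraMap B K b}.Finite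
  /-- the product formula -/
  pf : ∀ (x : R) (z : B) (y : ℕ), x ≠ 0 → algebraMap R K x * algebraMap B K s ^ y =
    algebraMap B K z → (Ideal.span {x}).cardQuot * (Ideal.span {z}).cardQuot =
      (Ideal.span {s}).cardQuot ^ y

variable {R B K : Type} [CommRing R] [IsDedekindDomain R] [CommRing B] [IsDedekindDomain B]
    [Field K] [Algebra R K] [Algebra B K] [IsFractionRing R K] [IsFractionRing B K]
    [Ring.HasFiniteQuotients R] [Ring.HasFiniteQuotients B] [Infinite R] [Infinite B] {s : B}

omit [IsFractionRing R K] [Ring.HasFiniteQuotients R] [Infinite R] [Infinite B] in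
/-- `|s|_Q ≤ 1/2`. -/
theorem PF.dabs_s (h : PF R B K s) (Q : HeightOneSpectrum B) :
    dabs K Q (algebraMap B K s) ≤ 1 / 2 := by
  have h1 : Q.intValuation s ≤ WithZero.exp (-(1 : ℕ) : ℤ) := by
    rw [HeightOneSpectrum.intValuation_le_pow_iff_mem, pow_one]
    exact h.rad Q
  have h2 : Q.valuation K (algebraMap B K s) ≤ WithZero.exp (-1 : ℤ) := by
    rw [HeightOneSpectrum.valuation_of_algebraMap]
    exact_mod_cast h1
  have h3 := (WithZeroMulInt.toNNReal_strictMono (one_lt_nrm Q)).monotone h2
  rw [toNNReal_exp] at h3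
  have h4 : dabs K Q (algebraMap B K s) ≤ ((nrm Q) ^ (-1 : ℤ) : ℝ≥0) := by
    rw [dabs_def]
    exact_mod_cast h3
  refine h4.trans ?_
  push_cast
  rw [zpow_neg_one, one_div]
  have h5 : (2 : ℝ) ≤ nrm Q := by exact_mod_cast two_le_nrm Q
  exact inv_anti₀ two_pos h5

omit [IsFractionRing R K] [Ring.HasFiniteQuotients R] [Infinite R] [Infinite B] in
/-- Elements with `|x|_Q ≤ 2 ^ y` lie in `s ^ (-y) B`. -/
theorem PF.mem_of_le (h : PF R B K s) {x : K} {y : ℕ}
    (hx : ∀ Q : HeightOneSpectrum B, dabs K Q x ≤ 2 ^ y) :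
    ∃ b : B, x * algebraMap B K s ^ y = algebraMap B K b := by
  obtain ⟨b, hb⟩ := exists_of_dabs_le_one (D := B) (x * algebraMap B K s ^ y) (fun Q => by
    rw [map_mul, map_pow]
    have h1 := hx Q
    have h2 := pow_le_pow_left₀ ((dabs K Q).nonneg _) (h.dabs_s Q) y
    calc dabs K Q x * dabs K Q (algebraMap B K s) ^ y ≤ 2 ^ y * (1 / 2) ^ y :=
          mul_le_mul h1 h2 (pow_nonneg ((dabs K Q).nonneg _) _) (by positivity)
      _ = 1 := by rw [← mul_pow]; norm_num)
  exact ⟨b, hb.symm⟩

omit [IsFractionRing R K] [Ring.HasFiniteQuotients R] [Infinite R] [Infinite B] in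
theorem PF.exists_pow (h : PF R B K s) (x : K) :
    ∃ (y : ℕ) (b : B), x * algebraMap B K s ^ y = algebraMap B K b := by
  have := h.semi
  obtain ⟨M, hM⟩ := (Set.finite_range (fun Q : HeightOneSpectrum B => dabs K Q x)).bddAbove
  obtain ⟨y, hy⟩ := pow_unbounded_of_one_lt M (one_lt_two)
  obtain ⟨b, hb⟩ := h.mem_of_le (x := x) (y := y) (fun Q => (hM ⟨Q, rfl⟩).trans hy.le)
  exact ⟨y, b, hb⟩

variable (R B) in
/-- The product of all absolute values. -/
noncomputable def tot (x : K) : ℝ :=
  (∏ᶠ v : HeightOneSpectrum R, dabs K v x) * ∏ᶠ v : HeightOneSpectrum B, dabs K v x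

omit [Infinite R] [Infinite B] in
theorem tot_mul {x y : K} (hx : x ≠ 0) (hy : y ≠ 0) :
    tot R B (x * y) = tot R B x * tot R B y := by
  unfold tot
  simp only [map_mul]
  rw [finprod_mul_distrib (finite_dabs (D := R) hx) (finite_dabs (D := R) hy),
    finprod_mul_distrib (finite_dabs (D := B) hx) (finite_dabs (D := B) hy)]
  ring

omit [Infinite R] [Infinite B] in
theorem tot_one : tot R B (1 : K) = 1 := by
  unfold tot
  simp

/-- The product formula. -/
theorem PF.tot_eq (h : PF R B K s) {x : K} (hx : x ≠ 0) : tot R B x = 1 := by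
  have hs0 : algebraMap B K s ≠ 0 := by
    rw [Ne, FaithfulSMul.algebraMap_eq_zero_iff]
    exact h.ne
  have key : ∀ a : R, a ≠ 0 → tot R B (algebraMap R K a) = 1 := by
    intro a ha
    obtain ⟨y, b, hb⟩ := h.exists_pow (algebraMap R K a)
    have ha' : algebraMap R K a ≠ 0 := by
      rwa [Ne, FaithfulSMul.algebraMap_eq_zero_iff]
    have hb0 : b ≠ 0 := by
      rintro rfl
      rw [map_zero] at hb
      exact mul_ne_zero ha' (pow_ne_zero _ hs0) hb
    have h1 := h.pf a b y ha hb
    unfold tot
    rw [finprod_dabs ha]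
    have h2 : ∀ v : HeightOneSpectrum B, dabs K v (algebraMap R K a) =
        dabs K v (algebraMap B K b) * (dabs K v (algebraMap B K s))⁻¹ ^ y := by
      intro v
      rw [← hb, map_mul, map_pow, mul_assoc, inv_pow, mul_inv_cancel₀, mul_one]
      exact pow_ne_zero _ ((dabs K v).ne_zero hs0)
    have h3 : ∏ᶠ v : HeightOneSpectrum B, dabs K v (algebraMap R K a) =
        ((Ideal.span {b}).cardQuot : ℝ)⁻¹ * ((Ideal.span {s}).cardQuot : ℝ) ^ y := by
      rw [finprod_congr h2, finprod_mul_distrib (finite_dabs_int hb0)]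
      · rw [finprod_dabs hb0, ← inv_inv ((Ideal.span {s}).cardQuot : ℝ), ← finprod_dabs (K := K) h.ne,
          ← finprod_inv_distrib, finprod_pow]
        have := h.semi
        exact Set.toFinite _
      · have := h.semi
        exact Set.toFinite _
    rw [h3]
    have h4 : ((Ideal.span {a}).cardQuot : ℝ) ≠ 0 := by
      have := Ring.HasFiniteQuotients.cardQuot_pos (Ideal.span {a}) (by simpa using ha)
      exact_mod_cast this.ne'
    have h5 : ((Ideal.span {b}).cardQuot : ℝ) ≠ 0 := by
      have := Ring.HasFiniteQuotients.cardQuot_pos (Ideal.span {b}) (by simpa using hb0)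
      exact_mod_cast this.ne'
    have h6 : ((Ideal.span {a}).cardQuot : ℝ) * (Ideal.span {b}).cardQuot =
        ((Ideal.span {s}).cardQuot : ℝ) ^ y := by exact_mod_cast h1
    rw [← h6]
    field_simp
  obtain ⟨a, b, hb, rfl⟩ := IsFractionRing.div_surjective (A := R) x
  have hb0 : b ≠ 0 := nonZeroDivisors.ne_zero hb
  have ha0 : a ≠ 0 := by
    rintro rfl
    simp at hx
  have hb' : algebraMap R K b ≠ 0 := by rwa [Ne, FaithfulSMul.algebraMap_eq_zero_iff]
  have h1 := tot_mul (R := R) (B := B) hx hb'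
  rw [div_mul_cancel₀ _ hb', key a ha0, key b hb0, mul_one] at h1
  exact h1.symm

end Pool.Agent.BSDK
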