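import Mathlib

/-!
The absolute values of a Dedekind domain with finite quotients: `|x|_P = #(D/P) ^ (- v_P x)`, and
their product.
-/

set_option autoImplicit false

open IsDedekindDomain Function
open scoped NNReal

namespace Pool.Agent.BSDK

variable {D : Type} [CommRing D] [IsDedekindDomain D] [Ring.HasFiniteQuotients D]

/-- The number of elements of the residue field. -/
noncomputable def nrm (v : HeightOneSpectrum D) : ℝ≥0 := (v.asIdeal.cardQuot : ℝ≥0)

omit [IsDedekindDomain D] in
theorem two_le_cardQuot (v : HeightOneSpectrum D) : 2 ≤ v.asIdeal.cardQuot := by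
  have h1 := Ring.HasFiniteQuotients.cardQuot_pos v.asIdeal v.ne_bot
  have h2 : v.asIdeal.cardQuot ≠ 1 := by
    rw [Ne, Submodule.cardQuot_eq_one_iff]
    exact v.isPrime.ne_top
  omega

omit [IsDedekindDomain D] in
theorem two_le_nrm (v : HeightOneSpectrum D) : 2 ≤ nrm v := by
  unfold nrm
  exact_mod_cast two_le_cardQuot v

omit [IsDedekindDomain D] in
theorem one_lt_nrm (v : HeightOneSpectrum D) : 1 < nrm v :=
  lt_of_lt_of_le one_lt_two (two_le_nrm v)

variable {K : Type} [Field K] [Algebra D K] [IsFractionRing D K]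

variable (K) in
/-- The absolute value `#(D/P) ^ (- v_P x)`. -/
noncomputable def dabs (v : HeightOneSpectrum D) : AbsoluteValue K ℝ := v.adicAbv (one_lt_nrm v)

theorem dabs_def (v : HeightOneSpectrum D) (x : K) :
    dabs K v x = (WithZeroMulInt.toNNReal (ne_zero_of_lt (one_lt_nrm v)) (v.valuation K x) : ℝ≥0) :=
  rfl

theorem dabs_le_one (v : HeightOneSpectrum D) (x : D) : dabs K v (algebraMap D K x) ≤ 1 :=
  HeightOneSpectrum.adicAbv_coe_le_one v (one_lt_nrm v) x

theorem dabs_lt_one_iff (v : HeightOneSpectrum D) (x : D) :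
    dabs K v (algebraMap D K x) < 1 ↔ x ∈ v.asIdeal :=
  HeightOneSpectrum.adicAbv_coe_lt_one_iff v (one_lt_nrm v) x

theorem dabs_eq_one_iff (v : HeightOneSpectrum D) (x : D) :
    dabs K v (algebraMap D K x) = 1 ↔ x ∉ v.asIdeal :=
  HeightOneSpectrum.adicAbv_coe_eq_one_iff v (one_lt_nrm v) x

theorem dabs_injective : Function.Injective (dabs K (D := D)) := by
  intro v w h
  ext f
  rw [← dabs_lt_one_iff (K := K), ← dabs_lt_one_iff (K := K), h]

theorem dabs_le_one_iff (v : HeightOneSpectrum D) (x : K) :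
    dabs K v x ≤ 1 ↔ v.valuation K x ≤ 1 := by
  rw [dabs_def, ← NNReal.coe_one, NNReal.coe_le_coe]
  exact WithZeroMulInt.toNNReal_le_one_iff (one_lt_nrm v)

theorem toNNReal_exp {e : ℝ≥0} (he : e ≠ 0) (m : ℤ) :
    WithZeroMulInt.toNNReal he (WithZero.exp m) = e ^ m := by
  rw [WithZeroMulInt.toNNReal_neg_apply he WithZero.exp_ne_zero]
  rfl

theorem dabs_eq_zpow (v : HeightOneSpectrum D) {x : K} {m : ℤ}
    (hx : v.valuation K x = WithZero.exp m) : dabs K v x = (nrm v : ℝ) ^ m := by
  rw [dabs_def, hx, toNNReal_exp]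
  push_cast
  rfl

/-- An element with all absolute values at most `1` is integral. -/
theorem exists_of_dabs_le_one (x : K) (h : ∀ v : HeightOneSpectrum D, dabs K v x ≤ 1) :
    ∃ a : D, algebraMap D K a = x :=
  HeightOneSpectrum.mem_integers_of_valuation_le_one K x fun v => (dabs_le_one_iff v x).1 (h v)

variable [Infinite D]

variable (D) in
/-- The norm of ideals. -/
noncomputable def cardHom : Ideal D →* ℕ where
  toFun := Submodule.cardQuot
  map_one' := by rw [Ideal.one_eq_top, Submodule.cardQuot_top]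
  map_mul' I J := UniqueFactorizationMonoid.multiplicative_of_coprime Submodule.cardQuot I J
      (Submodule.cardQuot_bot _ _)
      (fun {I J} hI => by simp [Ideal.isUnit_iff.mp hI, Ideal.mul_top])
      (fun {I} i hI =>
        have : Ideal.IsPrime I := Ideal.isPrime_of_prime hI
        cardQuot_pow_of_prime hI.ne_zero)
      fun {I J} hIJ => cardQuot_mul_of_coprime <| Ideal.isCoprime_iff_sup_eq.mpr
        (Ideal.isUnit_iff.mp
          (hIJ (Ideal.dvd_iff_le.mpr le_sup_left) (Ideal.dvd_iff_le.mpr le_sup_right)))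

omit [Ring.HasFiniteQuotients D] in
theorem cardHom_apply (I : Ideal D) : cardHom D I = I.cardQuot := rfl

omit [Infinite D] in
theorem finite_dabs_int {x : D} (hx : x ≠ 0) :
    {v : HeightOneSpectrum D | dabs K v (algebraMap D K x) ≠ 1}.Finite := by
  have h : Ideal.span {x} ≠ 0 := by simpa using hx
  refine (Ideal.finite_factors h).subset ?_
  intro v hv
  simp only [Set.mem_ofPred_eq, ne_eq, dabs_eq_one_iff, not_not] at hv ⊢
  rwa [Ideal.dvd_span_singleton]

omit [Infinite D] in
theorem finite_dabs {x : K} (hx : x ≠ 0) : {v : HeightOneSpectrum D | dabs K v x ≠ 1}.Finite := by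
  obtain ⟨a, b, hb, rfl⟩ := IsFractionRing.div_surjective (A := D) x
  have hb0 : b ≠ 0 := nonZeroDivisors.ne_zero hb
  have ha0 : a ≠ 0 := by
    rintro rfl
    simp at hx
  refine ((finite_dabs_int (K := K) ha0).union (finite_dabs_int (K := K) hb0)).subset ?_
  intro v hv
  by_contra h
  simp only [Set.mem_union, Set.mem_ofPred_eq, ne_eq, not_or, not_not] at h hv
  apply hv
  rw [map_div₀, h.1, h.2, div_one]

theorem dabs_mul_cardQuot (v : HeightOneSpectrum D) {x : D} (hx : x ≠ 0) :
    dabs K v (algebraMap D K x) * cardHom D (v.maxPowDividing (Ideal.span {x})) = 1 := by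
  have hq : (nrm v : ℝ) ≠ 0 := by
    have := one_lt_nrm v
    exact_mod_cast (zero_lt_one.trans this).ne'
  have h0 : v.valuation K (algebraMap D K x) = WithZero.exp
      (-(Associates.mk v.asIdeal).count (Associates.mk (Ideal.span {x} : Ideal D)).factors : ℤ) := by
    rw [HeightOneSpectrum.valuation_of_algebraMap, HeightOneSpectrum.intValuation_if_neg v hx]
  have h1 : ((v.asIdeal.cardQuot : ℕ) : ℝ) = (nrm v : ℝ) := by simp [nrm]
  rw [HeightOneSpectrum.maxPowDividing, map_pow, Nat.cast_pow, dabs_eq_zpow v h0, cardHom_apply,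
    h1, ← zpow_natCast, ← zpow_add₀ hq, neg_add_cancel, zpow_zero]

/-- The product of the absolute values of a nonzero element of `D`. -/
theorem finprod_dabs {x : D} (hx : x ≠ 0) :
    ∏ᶠ v : HeightOneSpectrum D, dabs K v (algebraMap D K x) =
      ((Ideal.span {x}).cardQuot : ℝ)⁻¹ := by
  have h_ne : Ideal.span {x} ≠ 0 := by simpa using hx
  refine (inv_eq_of_mul_eq_one_left ?_).symm
  have h1 := Ideal.finprod_heightOneSpectrum_factorization h_ne
  have h2 : ((Ideal.span {x}).cardQuot : ℝ) =
      ∏ᶠ v : HeightOneSpectrum D, (cardHom D (v.maxPowDividing (Ideal.span {x})) : ℝ) := by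
    rw [← cardHom_apply]
    conv_lhs => rw [← h1]
    exact ((Nat.castRingHom ℝ).toMonoidHom.comp (cardHom D)).map_finprod
      (Ideal.hasFiniteMulSupport h_ne)
  have hfin : {v : HeightOneSpectrum D | cardHom D (v.maxPowDividing (Ideal.span {x})) ≠ 1}.Finite := by
    refine (Ideal.hasFiniteMulSupport h_ne).subset ?_
    intro v hv h0
    apply hv
    have h0' : v.maxPowDividing (Ideal.span {x}) = 1 := h0
    rw [h0', map_one]
  rw [h2, ← finprod_mul_distrib (finite_dabs_int hx)]
  · exact finprod_eq_one_of_forall_eq_one fun v => dabs_mul_cardQuot v hx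
  · refine hfin.subset ?_
    intro v hv h0
    apply hv
    simp only [h0, Nat.cast_one]

end Pool.Agent.BSDK
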