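import Pool.Agent.Lib.MP_48b749_nt.Defs

/-!
The residue field at a closed point of a function field over a finite field `k` is finite.

Let `T` be a nonzero element of the maximal ideal; it is transcendental over `k`, so `K` is finite
over `k(T)`, of degree `N`. If the residues of `y_0, …, y_N` were linearly independent over `k` then
a relation `∑ p_i(T) y_i = 0`, `p_i` polynomials, not all divisible by `X`, gives modulo the maximal
ideal the relation `∑ p_i(0) y_i = 0`.
-/

set_option autoImplicit false

open Polynomial

namespace Pool.Agent.BSDK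

open BSDFF

variable {k K : Type} [Field k] [Field K] [Algebra k K]

/-- A nonzero constant has value `1`. -/
theorem valuation_const (w : Place k K) {c : k} (hc : c ≠ 0) :
    w.ring.valuation (algebraMap k K c) = 1 := by
  have h4 := (w.ring.valuation_le_one_iff _).mpr (w.const_mem c)
  have h5 := (w.ring.valuation_le_one_iff _).mpr (w.const_mem (c⁻¹))
  have h6 : w.ring.valuation (algebraMap k K c) * w.ring.valuation (algebraMap k K c⁻¹) = 1 := by
    rw [← map_mul, ← map_mul, mul_inv_cancel₀ hc, map_one, map_one]
  refine le_antisymm h4 (not_lt.1 fun h7 => ?_)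
  exact absurd h6 (ne_of_lt (mul_lt_one_of_lt_of_le h7 h5))

theorem aeval_mem (w : Place k K) {T : K} (hT : T ∈ w.ring) (p : k[X]) :
    aeval T p ∈ w.ring := by
  induction p using Polynomial.induction_on with
  | C a => rw [aeval_C]; exact w.const_mem a
  | add p q hp hq => rw [map_add]; exact add_mem hp hq
  | monomial n a h =>
    rw [pow_succ, ← mul_assoc, map_mul, aeval_X]
    exact mul_mem h hT

/-- A polynomial in `T` with constant term zero lies in the maximal ideal. -/
theorem valuation_aeval_sub (w : Place k K) {T : K} (hT : w.ring.valuation T < 1) (p : k[X]) :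
    w.ring.valuation (aeval T p - algebraMap k K (p.coeff 0)) < 1 := by
  have hTm : T ∈ w.ring := (w.ring.valuation_le_one_iff _).1 hT.le
  have h : aeval T p - algebraMap k K (p.coeff 0) = aeval T p.divX * T := by
    conv_lhs => rw [← Polynomial.divX_mul_X_add p]
    simp
  rw [h, mul_comm, map_mul]
  exact mul_lt_one_of_lt_of_le hT ((w.ring.valuation_le_one_iff _).2 (aeval_mem w hTm _))

/-- A nonzero element of the maximal ideal is transcendental over `k`. -/
theorem transcendental_of_lt (w : Place k K) {T : K} (hT0 : T ≠ 0) (hT : w.ring.valuation T < 1) :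
    Transcendental k T := by
  intro halg
  have h1 := valuation_aeval_sub w hT (minpoly k T)
  rw [minpoly.aeval, zero_sub, Valuation.map_neg,
    valuation_const w (minpoly.coeff_zero_ne_zero halg.isIntegral hT0)] at h1
  exact lt_irrefl _ h1

variable [Algebra (RatFunc k) K] [IsScalarTower k (RatFunc k) K] [FiniteDimensional (RatFunc k) K]

/-- Clearing denominators and powers of `X` in a linear relation over `k(T)`. -/
theorem exists_relation {T : K} (hT : Transcendental k T) {n : ℕ}
    (hn : Module.finrank (IntermediateField.adjoin k {T}) K < n) (y : Fin n → K) :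
    ∃ q : Fin n → k[X], (∃ j, (q j).coeff 0 ≠ 0) ∧ ∑ i, aeval T (q i) * y i = 0 := by
  classical
  have hfin : FiniteDimensional (IntermediateField.adjoin k {T}) K :=
    FunctionField.finiteDimensional_of_adjoin_transcendental hT
  have hdep : ¬ LinearIndependent (IntermediateField.adjoin k {T}) y := by
    intro hli
    have := hli.fintype_card_le_finrank
    rw [Fintype.card_fin] at this
    omega
  rw [Fintype.linearIndependent_iff] at hdep
  push Not at hdep
  obtain ⟨g, hg, i₀, hi₀⟩ := hdep
  have hinj : Function.Injective (aeval T : k[X] →ₐ[k] K) := transcendental_iff_injective.1 hT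
  have hgi : ∀ i, ∃ r s : k[X], aeval T s ≠ (0 : K) ∧ ((g i : K) * aeval T s = aeval T r) := by
    intro i
    obtain ⟨r, s, hrs⟩ := (IntermediateField.mem_adjoin_simple_iff k _).1 (g i).2
    by_cases hs : aeval T s = (0 : K)
    · refine ⟨0, 1, by simp, ?_⟩
      rw [hrs, hs]; simp
    · exact ⟨r, s, hs, by rw [hrs, div_mul_cancel₀ _ hs]⟩
  choose r s hs hrs using hgi
  -- common denominator
  let p : Fin n → k[X] := fun i => r i * ∏ j ∈ Finset.univ.erase i, s j
  have hp : ∀ i, aeval T (p i) = (g i : K) * aeval T (∏ j, s j) := by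
    intro i
    simp only [p, map_mul]
    rw [← hrs, mul_assoc, ← map_mul, Finset.mul_prod_erase _ _ (Finset.mem_univ i)]
  have hprod : aeval T (∏ j, s j) ≠ (0 : K) := by
    rw [map_prod]
    exact Finset.prod_ne_zero_iff.2 fun i _ => hs i
  have hpsum : ∑ i, aeval T (p i) * y i = 0 := by
    have h1 : ∑ i, aeval T (p i) * y i = aeval T (∏ j, s j) * ∑ i, (g i) • y i := by
      rw [Finset.mul_sum]
      refine Finset.sum_congr rfl fun i _ => ?_
      rw [hp, IntermediateField.smul_def, smul_eq_mul]
      ring
    rw [h1, hg, mul_zero]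
  have hpne : p i₀ ≠ 0 := by
    intro h
    have := hp i₀
    rw [h, map_zero] at this
    have h2 : (g i₀ : K) ≠ 0 := fun h3 => hi₀ (Subtype.ext h3)
    exact mul_ne_zero h2 hprod this.symm
  -- the power of `X`
  have key : ∀ (m : ℕ) (p : Fin n → k[X]), (∃ i, p i ≠ 0 ∧ (p i).natDegree ≤ m) →
      ∑ i, aeval T (p i) * y i = 0 →
      ∃ q : Fin n → k[X], (∃ j, (q j).coeff 0 ≠ 0) ∧ ∑ i, aeval T (q i) * y i = 0 := by
    intro m
    induction m with
    | zero =>
      rintro p ⟨i, hi, hd⟩ hsum
      refine ⟨p, ⟨i, ?_⟩, hsum⟩
      have h1 := Polynomial.eq_C_of_natDegree_le_zero hd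
      intro h0
      apply hi
      rw [h1, h0, C_0]
    | succ m ih =>
      rintro p ⟨i, hi, hd⟩ hsum
      by_cases hc : ∃ j, (p j).coeff 0 ≠ 0
      · exact ⟨p, hc, hsum⟩
      · push Not at hc
        have hX : ∀ j, (p j).divX * X = p j := by
          intro j
          have := Polynomial.divX_mul_X_add (p j)
          rwa [hc j, C_0, add_zero] at this
        apply ih (fun j => (p j).divX)
        · refine ⟨i, ?_, ?_⟩
          · intro h0
            apply hi
            rw [← hX i, h0, zero_mul]
          · rw [Polynomial.natDegree_divX_eq_natDegree_tsub_one]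
            omega
        · have hT0 : T ≠ 0 := by
            rintro rfl
            exact hT (isAlgebraic_zero)
          apply mul_left_cancel₀ hT0
          rw [mul_zero, Finset.mul_sum, ← hsum]
          refine Finset.sum_congr rfl fun j _ => ?_
          conv_rhs => rw [← hX j]
          rw [map_mul, aeval_X]
          ring
  exact key _ p ⟨i₀, hpne, le_rfl⟩ hpsum

/-- The residue field at a closed point is finite. -/
theorem residue_finite [Finite k] (w : Place k K) : Finite (IsLocalRing.ResidueField w.ring) := by
  classical
  obtain ⟨ϖ, hϖ⟩ := IsDiscreteValuationRing.exists_irreducible w.ring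
  have hT : w.ring.valuation (ϖ : K) < 1 :=
    (w.ring.valuation_lt_one_iff _).mp ((IsLocalRing.mem_maximalIdeal _).mpr hϖ.not_isUnit)
  have hT0 : (ϖ : K) ≠ 0 := fun h0 => hϖ.ne_zero (Subtype.ext h0)
  have htr := transcendental_of_lt w hT0 hT
  set N := Module.finrank (IntermediateField.adjoin k {(ϖ : K)}) K with hN
  let _ : Algebra k (IsLocalRing.ResidueField w.ring) := w.constMap.toAlgebra
  have hrank : Module.rank k (IsLocalRing.ResidueField w.ring) ≤ N := by
    refine rank_le fun s hs => ?_
    by_contra hcon
    push Not at hcon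
    obtain ⟨e⟩ : Nonempty (Fin (N + 1) ↪ s) := by
      apply Function.Embedding.nonempty_of_card_le
      rw [Fintype.card_fin, Fintype.card_coe]
      exact hcon
    have hli := hs.comp e e.injective
    have hsurj := IsLocalRing.residue_surjective (R := w.ring)
    choose y hy using fun i => hsurj ((e i : s) : IsLocalRing.ResidueField w.ring)
    obtain ⟨q, ⟨j, hj⟩, hq⟩ := exists_relation htr (n := N + 1) (by omega) (fun i => (y i : K))
    rw [Fintype.linearIndependent_iff] at hli
    apply hj
    refine hli (fun i => (q i).coeff 0) ?_ j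
    have hmem : ∀ i, aeval (ϖ : K) (q i) ∈ w.ring := fun i => aeval_mem w ϖ.2 _
    have h1 : ∑ i, (⟨aeval (ϖ : K) (q i), hmem i⟩ : w.ring) * y i = 0 := by
      apply Subtype.ext
      push_cast
      exact hq
    have h2 := congrArg (IsLocalRing.residue w.ring) h1
    rw [map_sum, map_zero] at h2
    rw [← h2]
    refine Finset.sum_congr rfl fun i _ => ?_
    rw [map_mul, hy]
    have h3 : IsLocalRing.residue w.ring ⟨aeval (ϖ : K) (q i), hmem i⟩ =
        w.constMap ((q i).coeff 0) := by
      unfold Place.constMap
      rw [RingHom.comp_apply, ← sub_eq_zero, ← map_sub, IsLocalRing.residue_eq_zero_iff,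
        w.ring.valuation_lt_one_iff]
      exact valuation_aeval_sub w hT (q i)
    rw [h3]
    rfl
  have : Module.Finite k (IsLocalRing.ResidueField w.ring) :=
    Module.rank_lt_aleph0_iff.1 (lt_of_le_of_lt hrank Cardinal.natCast_lt_aleph0)
  exact Module.finite_of_finite k

end Pool.Agent.BSDK
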