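import Pool.Agent.Lib.BSDK.Adm

/-!
Heights on the field of fractions `K` of two Dedekind domains `R`, `B`: the admissible absolute
values and the Northcott property.
-/

set_option autoImplicit false

open IsDedekindDomain Function Height
open scoped NNReal

namespace Pool.Agent.BSDK

variable {R B K : Type} [CommRing R] [IsDedekindDomain R] [CommRing B] [IsDedekindDomain B]
    [Field K] [Algebra R K] [Algebra B K] [IsFractionRing R K] [IsFractionRing B K]
    [Ring.HasFiniteQuotients R] [Ring.HasFiniteQuotients B] [Infinite R] [Infinite B] {s : B}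

/-- The absolute values of `K`; those of `B` are put in the finite part `archAbsVal`. -/
noncomputable abbrev PF.adm (h : PF R B K s) : AdmissibleAbsValues K :=
  have := h.semi
  letI := Fintype.ofFinite (HeightOneSpectrum B)
  { archAbsVal := (Finset.univ : Finset (HeightOneSpectrum B)).val.map (dabs K)
    nonarchAbsVal := Set.range (dabs K (D := R))
    isNonarchimedean := by
      rintro _ ⟨v, rfl⟩
      exact HeightOneSpectrum.isNonarchimedean_adicAbv v (one_lt_nrm v)
    hasFiniteMulSupport := by
      intro x hx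
      refine Set.Finite.subset ((finite_dabs (D := R) hx).image
        (fun v => (⟨dabs K v, v, rfl⟩ : Set.range (dabs K (D := R))))) ?_
      rintro ⟨_, v, rfl⟩ hv
      exact ⟨v, hv, rfl⟩
    product_formula := by
      intro x hx
      have h1 := h.tot_eq hx
      unfold tot at h1
      rw [Multiset.map_map, mul_comm]
      rw [← h1]
      congr 1
      · exact finprod_eq_of_bijective (Set.rangeFactorization (dabs K (D := R)))
          ⟨fun a b hab => dabs_injective (congrArg Subtype.val hab),
            Set.rangeFactorization_surjective⟩ (fun v => rfl) |>.symm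
      · rw [finprod_eq_prod_of_fintype]
        rfl }

/-- The height in terms of the absolute values. -/
theorem PF.mulHeight₁_eq (h : PF R B K s) (x : K) :
    @mulHeight₁ K _ h.adm x = (∏ᶠ v : HeightOneSpectrum B, max (dabs K v x) 1) *
      ∏ᶠ v : HeightOneSpectrum R, max (dabs K v x) 1 := by
  let _ := h.adm
  have := h.semi
  let _ := Fintype.ofFinite (HeightOneSpectrum B)
  rw [Height.mulHeight₁_eq]
  congr 1
  · rw [finprod_eq_prod_of_fintype]
    change (Multiset.map _ ((Finset.univ : Finset (HeightOneSpectrum B)).val.map (dabs K))).prod = _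
    rw [Multiset.map_map]
    rfl
  · exact finprod_eq_of_bijective (Set.rangeFactorization (dabs K (D := R)))
      ⟨fun a b hab => dabs_injective (congrArg Subtype.val hab),
        Set.rangeFactorization_surjective⟩ (fun v => rfl) |>.symm

omit [IsFractionRing B K] [Ring.HasFiniteQuotients B] [IsDedekindDomain B] [Infinite B] [Infinite R]
  [CommRing B] [Algebra B K] in
theorem finite_max {x : K} :
    {v : HeightOneSpectrum R | max (dabs K v x) 1 ≠ 1}.Finite := by
  by_cases hx : x = 0
  · subst hx
    simp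
  · refine (finite_dabs (D := R) hx).subset ?_
    intro v hv h0
    apply hv
    simp only [h0, max_self]

/-- Each factor is at most the height. -/
theorem PF.le_mulHeight (h : PF R B K s) (x : K) :
    (∀ v : HeightOneSpectrum B, dabs K v x ≤ @mulHeight₁ K _ h.adm x) ∧
      ∏ᶠ v : HeightOneSpectrum R, max (dabs K v x) 1 ≤ @mulHeight₁ K _ h.adm x := by
  classical
  have := h.semi
  let _ := Fintype.ofFinite (HeightOneSpectrum B)
  rw [h.mulHeight₁_eq]
  have h1 : 1 ≤ ∏ᶠ v : HeightOneSpectrum R, max (dabs K v x) 1 :=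
    one_le_finprod fun _ => le_max_right _ _
  have h2 : 1 ≤ ∏ᶠ v : HeightOneSpectrum B, max (dabs K v x) 1 :=
    one_le_finprod fun _ => le_max_right _ _
  constructor
  · intro v
    have h3 : dabs K v x ≤ ∏ᶠ v : HeightOneSpectrum B, max (dabs K v x) 1 := by
      rw [finprod_eq_prod_of_fintype]
      refine (le_max_left _ 1).trans ?_
      rw [← Finset.mul_prod_erase Finset.univ (fun v => max (dabs K v x) 1) (Finset.mem_univ v)]
      refine le_mul_of_one_le_right (zero_le_one.trans (le_max_right _ _)) ?_
      calc (1 : ℝ) = ∏ _i ∈ Finset.univ.erase v, (1 : ℝ) := by rw [Finset.prod_const_one]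
        _ ≤ _ := Finset.prod_le_prod (fun _ _ => zero_le_one) (fun i _ => le_max_right _ _)
    exact h3.trans (le_mul_of_one_le_right (by linarith) h1)
  · exact le_mul_of_one_le_left (by linarith) h2

/-- The exponent of the denominator at `v`. -/
noncomputable def dexp (x : K) (v : HeightOneSpectrum R) : ℕ :=
  (WithZero.log (v.valuation K x)).toNat

omit [Ring.HasFiniteQuotients R] [Infinite R] in
theorem valuation_le_dexp (x : K) (v : HeightOneSpectrum R) :
    v.valuation K x ≤ WithZero.exp (dexp x v : ℤ) := by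
  by_cases hx : x = 0
  · subst hx
    rw [map_zero]
    exact zero_le
  · have h0 : v.valuation K x ≠ 0 := (Valuation.ne_zero_iff _).2 hx
    conv_lhs => rw [← WithZero.exp_log h0]
    rw [WithZero.exp_le_exp]
    exact Int.self_le_toNat _

omit [Infinite R] in
theorem nrm_pow_dexp {x : K} (hx : x ≠ 0) (v : HeightOneSpectrum R) :
    (nrm v : ℝ) ^ dexp x v = max (dabs K v x) 1 := by
  have h0 : v.valuation K x ≠ 0 := (Valuation.ne_zero_iff _).2 hx
  have h1 : dabs K v x = (nrm v : ℝ) ^ (WithZero.log (v.valuation K x)) :=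
    dabs_eq_zpow v (WithZero.exp_log h0).symm
  have hq : (1 : ℝ) < nrm v := by exact_mod_cast one_lt_nrm v
  rw [h1]
  unfold dexp
  rcases le_total 0 (WithZero.log (v.valuation K x)) with h | h
  · rw [max_eq_left (one_le_zpow₀ hq.le h), ← zpow_natCast, Int.toNat_of_nonneg h]
  · rw [max_eq_right (zpow_le_one_of_nonpos₀ hq.le h), Int.toNat_of_nonpos h, pow_zero]

/-- The denominator ideal of `x ≠ 0`: its norm is the finite part of the height, and it multiplies
`x` into `R`. -/
theorem exists_denom {x : K} (hx : x ≠ 0) : ∃ I : Ideal R, I ≠ ⊥ ∧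
    (I.cardQuot : ℝ) = ∏ᶠ v : HeightOneSpectrum R, max (dabs K v x) 1 ∧
    ∀ r ∈ I, ∃ a : R, algebraMap R K a = algebraMap R K r * x := by
  classical
  have hfin : (mulSupport (fun v : HeightOneSpectrum R => v.asIdeal ^ dexp x v)).Finite := by
    refine (finite_dabs (D := R) hx).subset ?_
    intro v hv h0
    apply hv
    have h1 := nrm_pow_dexp hx v
    rw [h0, max_self] at h1
    have hq : (1 : ℝ) < nrm v := by exact_mod_cast one_lt_nrm v
    have h2 : dexp x v = 0 := by
      by_contra h3
      exact absurd h1 (one_lt_pow₀ hq h3).ne'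
    simp only [h2, pow_zero]
  refine ⟨∏ᶠ v : HeightOneSpectrum R, v.asIdeal ^ dexp x v, ?_, ?_, ?_⟩
  · rw [finprod_eq_prod _ hfin]
    rw [← Ideal.zero_eq_bot]
    exact Finset.prod_ne_zero_iff.2 fun v _ => pow_ne_zero _ v.ne_bot
  · rw [← cardHom_apply]
    have h1 := ((Nat.castRingHom ℝ).toMonoidHom.comp (cardHom R)).map_finprod hfin
    have h2 : ((cardHom R (∏ᶠ v : HeightOneSpectrum R, v.asIdeal ^ dexp x v) : ℕ) : ℝ) =
        ∏ᶠ v : HeightOneSpectrum R, ((cardHom R (v.asIdeal ^ dexp x v) : ℕ) : ℝ) := h1
    rw [h2]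
    refine finprod_congr fun v => ?_
    rw [map_pow, Nat.cast_pow, cardHom_apply, ← nrm_pow_dexp hx v]
    simp [nrm]
  · intro r hr
    have h1 : ∀ v : HeightOneSpectrum R, r ∈ v.asIdeal ^ dexp x v := by
      intro v
      by_cases hv : v ∈ hfin.toFinset
      · rw [finprod_eq_prod _ hfin] at hr
        exact (Ideal.prod_le_inf.trans (Finset.inf_le hv)) hr
      · rw [Set.Finite.mem_toFinset, mem_mulSupport, not_not] at hv
        rw [hv, Ideal.one_eq_top]
        trivial
    refine HeightOneSpectrum.mem_integers_of_valuation_le_one K _ fun v => ?_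
    have h2 : v.valuation K (algebraMap R K r) ≤ WithZero.exp (-(dexp x v : ℤ)) := by
      rw [HeightOneSpectrum.valuation_of_algebraMap, HeightOneSpectrum.intValuation_le_pow_iff_mem]
      exact h1 v
    rw [map_mul]
    calc v.valuation K (algebraMap R K r) * v.valuation K x
        ≤ WithZero.exp (-(dexp x v : ℤ)) * WithZero.exp (dexp x v : ℤ) :=
          mul_le_mul' h2 (valuation_le_dexp x v)
      _ = 1 := by rw [← WithZero.exp_add, neg_add_cancel, WithZero.exp_zero]

/-- **Northcott.** -/
theorem PF.northcott (h : PF R B K s) : Northcott (@mulHeight₁ K _ h.adm) := by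
  classical
  have := h.semi
  refine ⟨fun H => ?_⟩
  -- the possible denominators
  have hI : {I : Ideal R | I.cardQuot ≤ ⌊H⌋₊}.Finite := Ring.HasFiniteQuotients.finite_cardQuot_le _
  have hex : ∀ I : Ideal R, I ≠ ⊥ → ∃ g ∈ I, g ≠ 0 := fun I hI =>
    Submodule.exists_mem_ne_zero_of_ne_bot hI
  choose! g hg hg0 using hex
  -- bound at infinity
  have hy : ∀ I : Ideal R, ∃ y : ℕ, ∀ Q : HeightOneSpectrum B,
      dabs K Q (algebraMap R K (g I)) * H ≤ 2 ^ y := by
    intro I
    obtain ⟨M, hM⟩ := (Set.finite_range (fun Q : HeightOneSpectrum B =>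
      dabs K Q (algebraMap R K (g I)) * H)).bddAbove
    obtain ⟨y, hy⟩ := pow_unbounded_of_one_lt M (one_lt_two)
    exact ⟨y, fun Q => (hM ⟨Q, rfl⟩).trans hy.le⟩
  choose y hy using hy
  have hfin : (⋃ I ∈ {I : Ideal R | I.cardQuot ≤ ⌊H⌋₊},
      (fun r : R => algebraMap R K r / algebraMap R K (g I)) ''
        {r : R | ∃ b : B, algebraMap R K r * algebraMap B K s ^ (y I) = algebraMap B K b}).Finite :=
    hI.biUnion fun I _ => (h.fin (y I)).image _
  refine (hfin.union (Set.finite_singleton 0)).subset ?_
  intro x hx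
  have hx : @mulHeight₁ K _ h.adm x ≤ H := hx
  by_cases hx0 : x = 0
  · right
    exact hx0
  left
  obtain ⟨I, hI0, hIc, hIm⟩ := exists_denom (R := R) hx0
  have h1 := h.le_mulHeight x
  have hIH : (I.cardQuot : ℝ) ≤ H := by
    rw [hIc]
    exact h1.2.trans hx
  obtain ⟨r, hr⟩ := hIm (g I) (hg I hI0)
  have hgK : algebraMap R K (g I) ≠ 0 := by
    rw [Ne, FaithfulSMul.algebraMap_eq_zero_iff]
    exact hg0 I hI0
  refine Set.mem_biUnion (x := I) ?_ ⟨r, ?_, ?_⟩
  · exact Nat.le_floor hIH
  · apply h.mem_of_le
    intro Q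
    rw [hr, map_mul]
    refine le_trans ?_ (hy I Q)
    exact mul_le_mul_of_nonneg_left ((h1.1 Q).trans hx) ((dabs K Q).nonneg _)
  · simp only
    rw [hr, mul_div_cancel_left₀ _ hgK]

/-- Northcott for the logarithmic height. -/
theorem PF.northcott_log (h : PF R B K s) : Northcott (@logHeight₁ K _ h.adm) := by
  let _ := h.adm
  have := h.northcott
  infer_instance

end Pool.Agent.BSDK
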