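import Pool.Agent.Lib.BSDP.Last
import Pool.Agent.Lib.BSDK.LocK
import Pool.Agent.Lib.BSDK.Rank
import Pool.Agent.Lib.BSDK.North

/-!
Consequences of the triviality of the `2`-Selmer group of `E : y ^ 2 = x ^ 3 + A x + B` over a
function field `K` over a finite field: every point is twice a point, `E(K)` is finite, the rank is
`0`, and `Sha(E / K)[2] = 0` in terms of binary quartics. (Generalization of `BSDP/H/Main.lean` and
`BSDP/Last.lean` from `k(t)` to `K`.)
-/

set_option autoImplicit false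

open Polynomial Height

namespace Pool.Agent.BSDK

open BSDFF BSDP

variable {k K : Type} [Field k] [Field K] [Algebra k K]

private theorem natCast_ne {n : ℕ} (h : (n : k) ≠ 0) {F : Type} [Field F] (φ : K →+* F) :
    (n : F) ≠ 0 := by
  have h1 : (φ.comp (algebraMap k K)) (n : k) = (n : F) := map_natCast _ n
  rw [← h1]
  exact (_root_.map_ne_zero _).2 h

private theorem map_zcov {F F' : Type} [Field F] [Field F'] (φ : F →+* F') (A B a b c d e : F) :
    Cu.map φ (zcov A B a b c d e) = zcov (φ A) (φ B) (φ a) (φ b) (φ c) (φ d) (φ e) := by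
  ext
  · simp [zcov, map_ofNat]
  · simp [zcov, map_ofNat]
  · simp [zcov]

private theorem disc_ne {A B : K} (hD : 4 * A ^ 3 + 27 * B ^ 2 ≠ 0) {F : Type} [Field F]
    (φ : K →+* F) : 4 * (φ A) ^ 3 + 27 * (φ B) ^ 2 ≠ 0 := by
  have h : φ (4 * A ^ 3 + 27 * B ^ 2) = 4 * (φ A) ^ 3 + 27 * (φ B) ^ 2 := by
    simp [map_ofNat]
  rw [← h]
  exact (_root_.map_ne_zero φ).2 hD

/-- The `2`-Selmer condition in terms of `SelF`. -/
theorem selTwoTrivial_iff (A B : K) : SelTwoTrivial k A B ↔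
    ∀ γ : Cu A B, (∃ n : K, n ≠ 0 ∧ γ.norm = n ^ 2) →
      (∀ w : Place k K, SelF 1 (Cu.map w.toCompletion γ)) → IsSquare γ := by
  unfold SelTwoTrivial InImageOver
  simp only [inImage_iff]
  rfl

/-- Every point is twice a point. -/
theorem halves [DecidableEq K] {A B : K} (hsel : SelTwoTrivial k A B) (h2 : (2 : k) ≠ 0)
    (hdom : ∀ u : Cu A B, u ≠ 0 → u.norm ≠ 0)
    [(⟨0, 0, 0, A, B⟩ : WeierstrassCurve K).IsElliptic]
    (P : (⟨0, 0, 0, A, B⟩ : WeierstrassCurve K).toAffine.Point) :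
    ∃ Q : (⟨0, 0, 0, A, B⟩ : WeierstrassCurve K).toAffine.Point, P = Q + Q := by
  rw [selTwoTrivial_iff] at hsel
  have h2' : (2 : K) ≠ 0 := by
    simpa using natCast_ne (n := 2) (by simpa using h2) (RingHom.id K)
  rcases P with _ | ⟨x, y, h⟩
  · exact ⟨0, (add_zero 0).symm⟩
  have heq : y ^ 2 = x ^ 3 + A * x + B := by
    have := (WeierstrassCurve.Affine.equation_iff ..).1 h.1
    linear_combination this
  have hn : (Cu.lin A B x 1).norm = y ^ 2 := by
    rw [Cu.norm_lin, heq]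
    ring
  have hlin : Cu.lin A B x 1 ≠ 0 := by
    intro h
    have := congrArg Cu.y h
    simp only [Cu.lin, Cu.zero_y] at this
    exact one_ne_zero (neg_eq_zero.1 this)
  have hy : y ≠ 0 := by
    rintro rfl
    apply hdom _ hlin
    rw [hn, zero_pow two_ne_zero]
  refine exists_half h2' A B h (hsel _ ⟨y, hy, hn⟩ fun w => ?_)
  right
  refine ⟨w.toCompletion x, w.toCompletion y, (_root_.map_ne_zero _).2 hy, ?_, ?_⟩
  · rw [← map_pow, heq]
    simp
  · have : Cu.map w.toCompletion (Cu.lin A B x 1) =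
        Cu.lin (w.toCompletion A) (w.toCompletion B) (w.toCompletion x) 1 := by
      ext <;> simp [Cu.lin]
    rw [this]
    exact ⟨_, rfl⟩

/-- **Sha[2] = 0**, in terms of quartics. -/
theorem quartic [Algebra (RatFunc k) K] [IsScalarTower k (RatFunc k) K]
    [FiniteDimensional (RatFunc k) K] [Finite k]
    {A B : K} (hsel : SelTwoTrivial k A B) (h2 : (2 : k) ≠ 0) (h3 : (3 : k) ≠ 0)
    (hD : 4 * A ^ 3 + 27 * B ^ 2 ≠ 0) (hdom : ∀ u : Cu A B, u ≠ 0 → u.norm ≠ 0) :
    ShaTwoTrivial k A B := by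
  rw [selTwoTrivial_iff] at hsel
  intro a b c d e hI hJ hels
  unfold quartI at hI
  unfold quartJ at hJ
  have h2' : (2 : K) ≠ 0 := by
    simpa using natCast_ne (n := 2) (by simpa using h2) (RingHom.id K)
  have h3' : (3 : K) ≠ 0 := by
    simpa using natCast_ne (n := 3) (by simpa using h3) (RingHom.id K)
  by_cases ha : a = 0
  · exact ⟨1, 0, Or.inl one_ne_zero, by unfold quart; rw [ha]; ring⟩
  have hz0 : zcov A B a b c d e ≠ 0 := by
    intro h
    have := congrArg Cu.y h
    simp only [zcov, Cu.zero_y] at this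
    rw [show (16 : K) = 2 ^ 4 by norm_num] at this
    exact (mul_ne_zero (neg_ne_zero.2 (pow_ne_zero _ h2')) ha) this
  have hn := hdom _ hz0
  refine exists_zero_of_isSquare h2' h3' hI hJ hD hdom (hsel _ ?_ ?_)
  · refine ⟨b ^ 3 + 8 * a ^ 2 * d - 4 * a * b * c, ?_, norm_zcov h2' h3' hI hJ⟩
    intro h
    apply hn
    rw [norm_zcov h2' h3' hI hJ, h, zero_pow two_ne_zero]
  · intro w
    obtain ⟨X, Z, Y, hXZ, hY⟩ := hels w
    rw [map_zcov]
    have h3w : (3 : w.ring.valuation.Completion) ≠ 0 := by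
      simpa using natCast_ne (n := 3) (by simpa using h3) w.toCompletion
    refine selF_zcov (locAt h2 w).toLoc h3w ?_ ?_ (disc_ne hD w.toCompletion) ?_ hXZ hY
    · have := congrArg w.toCompletion hI
      simpa [map_ofNat] using this
    · have := congrArg w.toCompletion hJ
      simpa [map_ofNat] using this
    · rw [← map_zcov, Cu.norm_map]
      exact (_root_.map_ne_zero _).2 hn

/-- The conclusions for one curve over `K`. -/
theorem trivialSelmer_of [Algebra (RatFunc k) K] [IsScalarTower k (RatFunc k) K]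
    [FiniteDimensional (RatFunc k) K] [Finite k] (h2 : (2 : k) ≠ 0) (h3 : (3 : k) ≠ 0)
    [AdmissibleAbsValues K] [Northcott (logHeight₁ (K := K))] {A B : K}
    (hD : 4 * A ^ 3 + 27 * B ^ 2 ≠ 0) (hsel : SelTwoTrivial k A B)
    (hdom : ∀ u : Cu A B, u ≠ 0 → u.norm ≠ 0)
    (hj : ∀ c : k, (curve A B).c₄ ^ 3 ≠ algebraMap k K c * (curve A B).Δ) :
    TrivialSelmer k A B := by
  classical
  have hΔ : (curve A B).Δ ≠ 0 := by
    rw [curve_disc]
    refine mul_ne_zero ?_ hD
    have h : (2 : K) ≠ 0 := by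
      have := (map_ne_zero (algebraMap k K)).2 h2
      rwa [map_ofNat] at this
    rw [show (-16 : K) = -(2 ^ 4) by norm_num]
    exact neg_ne_zero.2 (pow_ne_zero _ h)
  have hell : (⟨0, 0, 0, A, B⟩ : WeierstrassCurve K).IsElliptic :=
    ⟨isUnit_iff_ne_zero.2 hΔ⟩
  have hhalf := fun P => halves hsel h2 hdom P
  obtain ⟨hr, hf⟩ := rank_zero_of_halves (⟨0, 0, 0, A, B⟩ : WeierstrassCurve K) hhalf
  exact ⟨hΔ, hj, hsel, fun P => hhalf P, hf, hr, quartic hsel h2 h3 hD hdom⟩

private theorem adj_ne_zero {A B : K} (h : ∀ x : K, x ^ 3 + A * x + B ≠ 0)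
    {u : Cu A B} (hu : u ≠ 0) : u.adj ≠ 0 := by
  intro h0
  have e1 := congrArg Cu.x h0
  have e2 := congrArg Cu.y h0
  have e3 := congrArg Cu.z h0
  simp only [Cu.adj, Cu.zero_x, Cu.zero_y, Cu.zero_z] at e1 e2 e3
  by_cases hz : u.z = 0
  · have hy : u.y = 0 := by
      rw [hz] at e3
      simpa using e3
    have hx : u.x = 0 := by
      rw [hz, hy] at e1
      simpa using e1
    exact hu (by ext <;> assumption)
  · apply h (u.y / u.z)
    have h3 : u.z ^ 3 ≠ 0 := pow_ne_zero _ hz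
    apply mul_left_cancel₀ h3
    rw [mul_zero]
    field_simp
    linear_combination (-u.z) * e2 + u.y * e3

private theorem adj_adj {A B : K} (u : Cu A B) : u.adj.adj = u.norm • u := by
  ext <;> simp only [Cu.adj, Cu.norm, Cu.smul_x, Cu.smul_y, Cu.smul_z] <;> ring

/-- If `x ^ 3 + A x + B` has no root in `K` then the norm of a nonzero element of `K[θ]` is not
zero. -/
theorem norm_ne_zero_of_noroot {A B : K} (h : ∀ x : K, x ^ 3 + A * x + B ≠ 0)
    (u : Cu A B) (hu : u ≠ 0) : u.norm ≠ 0 := by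
  intro h0
  have h1 := adj_ne_zero h (adj_ne_zero h hu)
  rw [adj_adj, h0] at h1
  apply h1
  ext <;> simp

end Pool.Agent.BSDK
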